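import Pool.Agent.H31.SW.TargetsG

/-!
# Module NG of the board swl_modules: the numbers of the dual sums
-/

set_option autoImplicit false

namespace Pool.Agent.H63.SW.NG

open Pool.Agent.H31.SW

theorem pf_NG : W_NG := by
  intro D Φ hD hΦ
  have hΦ0 : 0 < Φ := by linarith
  set f : ℝ := Real.log Φ with hf
  set m : ℝ := Real.log (D * Φ) with hm
  have hΦe : Φ = Real.exp f := (Real.exp_log hΦ0).symm
  have hMe : D * Φ = Real.exp m := (Real.exp_log (by positivity)).symm
  have hDe : D = Real.exp (m - f) := by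
    rw [Real.exp_sub, ← hMe, ← hΦe]
    field_simp
  have hf0 : 0 ≤ f := Real.log_nonneg hΦ
  have e1 : D ^ (5 / 6 : ℝ) * Φ ^ (13 / 15 : ℝ) = Real.exp (5 / 6 * m + f / 30) := by
    rw [hDe, hΦe, ← Real.exp_mul, ← Real.exp_mul, ← Real.exp_add]
    congr 1
    ring
  have e2 : D ^ (25 / 24 : ℝ) * Φ ^ (121 / 120 : ℝ) = Real.exp (25 / 24 * m - f / 30) := by
    rw [hDe, hΦe, ← Real.exp_mul, ← Real.exp_mul, ← Real.exp_add]
    congr 1
    ring
  rw [e1, e2, hMe]
  have p1 := Real.exp_pos (5 / 6 * m + f / 30)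
  have p2 := Real.exp_pos (25 / 24 * m - f / 30)
  by_cases c1 : m ≤ 0
  · left
    have : Real.exp m ≤ 1 := Real.exp_le_one_iff.2 c1
    linarith
  push Not at c1
  by_cases c2 : 5 * m < f
  · left
    have h1 : Real.exp m ≤ Real.exp (5 / 6 * m + f / 30) := Real.exp_le_exp.2 (by linarith)
    linarith
  push Not at c2
  by_cases c3 : 4 / 5 * f < m
  · left
    have h1 : Real.exp m ≤ Real.exp (25 / 24 * m - f / 30) := Real.exp_le_exp.2 (by linarith)
    linarith
  push Not at c3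
  right
  have hfp : 0 < f := by linarith
  set ρ : ℝ := 4 / 3 * m - 4 / 15 * f with hρ
  have hρ0 : 0 ≤ ρ := by rw [hρ]; linarith
  have hρm : ρ ≤ m := by rw [hρ]; linarith
  have key : ∀ x : ℝ, D * Φ ^ (1 - (m - x) / f) = Real.exp x := by
    intro x
    rw [hDe, hΦe, ← Real.exp_mul, ← Real.exp_add]
    congr 1
    field_simp
    ring
  refine ⟨Real.exp ρ, (m - ρ / 4) / f, (m - ρ / 2) / f, (m - ρ) / f,
    Φ ^ (1 - (m - ρ / 4) / f - (m - ρ / 2) / f - (m - ρ) / f), ?_, ?_, ?_, ?_, ?_, ?_, ?_, rfl,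
    ?_, ?_, ?_, ?_⟩
  · exact Real.one_le_exp hρ0
  · exact div_nonneg (by linarith) hf0
  · exact div_nonneg (by linarith) hf0
  · exact div_nonneg (by linarith) hf0
  · rw [← add_div, ← add_div, div_le_one hfp, hρ]
    linarith
  · refine Real.one_le_rpow hΦ ?_
    have : 1 - (m - ρ / 4) / f - (m - ρ / 2) / f - (m - ρ) / f =
        (f - (m - ρ / 4) - (m - ρ / 2) - (m - ρ)) / f := by
      field_simp
    rw [this]
    refine div_nonneg ?_ hf0
    rw [hρ]
    linarith
  · exact Real.one_le_exp c1.le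
  · rw [key, ← Real.exp_mul]
    congr 1
    ring
  · rw [key, ← Real.exp_mul]
    congr 1
    ring
  · exact key ρ
  · intro C S hC hS h
    have hP : Φ ^ (1 - (m - ρ / 4) / f - (m - ρ / 2) / f - (m - ρ) / f) =
        Real.exp (8 / 15 * f - 2 / 3 * m) := by
      rw [hΦe, ← Real.exp_mul]
      congr 1
      rw [hρ]
      field_simp
      ring
    rw [hP, ← Real.exp_neg, ← Real.exp_mul, ← Real.exp_mul, ← Real.exp_nat_mul,
      ← Real.exp_nat_mul, ← Real.exp_add, ← Real.exp_add, ← Real.exp_add] at h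
    have x1 : Real.exp (5 / 6 * m + f / 30) ^ 8 = Real.exp (20 / 3 * m + 4 / 15 * f) := by
      rw [← Real.exp_nat_mul]
      congr 1
      push_cast
      ring
    have x2 : Real.exp (25 / 24 * m - f / 30) ^ 8 = Real.exp (25 / 3 * m - 4 / 15 * f) := by
      rw [← Real.exp_nat_mul]
      congr 1
      push_cast
      ring
    have y1 : ((8 : ℕ) : ℝ) * m + -ρ = 20 / 3 * m + 4 / 15 * f := by
      rw [hρ]
      push_cast
      ring
    have y2 : ((8 : ℕ) : ℝ) * m + (8 / 15 * f - 2 / 3 * m) * (-(1 / 2)) =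
        25 / 3 * m - 4 / 15 * f := by
      push_cast
      ring
    have y3 : ((7 : ℕ) : ℝ) * m + (8 / 15 * f - 2 / 3 * m) * (1 / 2) =
        20 / 3 * m + 4 / 15 * f := by
      push_cast
      ring
    rw [y1, y2, y3, ← x1, ← x2] at h
    set X : ℝ := Real.exp (5 / 6 * m + f / 30) with hX
    set Y : ℝ := Real.exp (25 / 24 * m - f / 30) with hY
    have hX8 : X ^ 8 ≤ (X + Y) ^ 8 := pow_le_pow_left₀ p1.le (by linarith) 8
    have hY8 : Y ^ 8 ≤ (X + Y) ^ 8 := pow_le_pow_left₀ p2.le (by linarith) 8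
    have hXY : 0 ≤ (X + Y) ^ 8 := by positivity
    have hle : S ^ 8 ≤ (C * (3 * (X + Y))) ^ 8 := by
      rw [mul_pow, mul_pow]
      refine h.trans (mul_le_mul_of_nonneg_left ?_ (by positivity))
      linarith
    exact le_of_pow_le_pow_left₀ (by norm_num) (by positivity) hle

end Pool.Agent.H63.SW.NG
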